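import Mathlib

/-!
# Spectrum of compact Lipschitz operators on Lipschitz-free spaces

For a complete pointed metric space `(M, z)` (bounded or not) and a Lipschitz map
`f : M → M` fixing the base point `z` whose linearization `T : F(M) → F(M)` is compact, we show
that the set `A(f)` of orders of periodic points other than `z` is finite and that
`σ(T) \ {0} = ⋃ n ∈ A(f), {λ | λ ^ n = 1}`.
-/

open scoped NNReal
open Filter Topology

namespace Pool.Agent.Results.MP_e86906_an.CompactLipschitzSpectrum

universe u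

section Defs

variable (M : Type u) [MetricSpace M] (z : M)

/-- The complex vector space of Lipschitz functions `g : M → ℂ` with `g z = 0`, as a subspace of
the space of all functions `M → ℂ`. -/
def lipSub : Submodule ℂ (M → ℂ) where
  carrier := {g | (∃ K : ℝ≥0, LipschitzWith K g) ∧ g z = 0}
  add_mem' := by
    rintro a b ⟨⟨K, hK⟩, ha⟩ ⟨⟨L, hL⟩, hb⟩
    exact ⟨⟨K + L, hK.add hL⟩, by simp [ha, hb]⟩
  zero_mem' := ⟨⟨0, LipschitzWith.const 0⟩, rfl⟩
  smul_mem' := by
    rintro c a ⟨⟨K, hK⟩, ha⟩
    refine ⟨⟨‖c‖₊ * K, ?_⟩, by simp [ha]⟩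
    refine LipschitzWith.of_dist_le_mul fun x y => ?_
    have := hK.dist_le_mul x y
    simp only [Pi.smul_apply, dist_eq_norm, ← smul_sub, norm_smul, NNReal.coe_mul, coe_nnnorm]
    rw [mul_assoc]
    rw [dist_eq_norm] at this
    exact mul_le_mul_of_nonneg_left this (norm_nonneg c)

/-- The space `Lip₀(M)` of complex-valued Lipschitz functions on `M` vanishing at the base point
`z`. It is equipped below with the norm given by the best Lipschitz constant. -/
def Lip0 : Type u := lipSub M z

variable {M z}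

/-- The pointwise additive group structure of `Lip₀(M)`. -/
noncomputable abbrev Lip0.addCommGroup : AddCommGroup (Lip0 M z) :=
  Submodule.addCommGroup (lipSub M z)

attribute [local instance] Lip0.addCommGroup

/-- The pointwise complex vector space structure of `Lip₀(M)`. -/
noncomputable abbrev Lip0.module : Module ℂ (Lip0 M z) :=
  Submodule.module (lipSub M z)

attribute [local instance] Lip0.module

instance : CoeFun (Lip0 M z) (fun _ => M → ℂ) := ⟨fun g => Subtype.val (p := (· ∈ lipSub M z)) g⟩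

/-- The best Lipschitz constant. -/
noncomputable instance : Norm (Lip0 M z) :=
  ⟨fun g => sInf {K : ℝ | 0 ≤ K ∧ ∀ x y, dist (g x) (g y) ≤ K * dist x y}⟩

namespace Lip0

/-- Build an element of `Lip₀(M)`. -/
def mk (g : M → ℂ) (K : ℝ≥0) (hK : LipschitzWith K g) (hz : g z = 0) : Lip0 M z :=
  ⟨g, ⟨K, hK⟩, hz⟩

@[simp] lemma mk_apply (g : M → ℂ) (K : ℝ≥0) (hK : LipschitzWith K g) (hz : g z = 0) (x : M) :
    (mk g K hK hz : Lip0 M z) x = g x := rfl

@[simp] lemma map_base (g : Lip0 M z) : g z = 0 := g.2.2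

@[ext] lemma ext {g h : Lip0 M z} (H : ∀ x, g x = h x) : g = h := Subtype.ext (funext H)

lemma bddBelow (g : Lip0 M z) :
    BddBelow {K : ℝ | 0 ≤ K ∧ ∀ x y, dist (g x) (g y) ≤ K * dist x y} := ⟨0, fun _ h => h.1⟩

lemma set_nonempty (g : Lip0 M z) :
    {K : ℝ | 0 ≤ K ∧ ∀ x y, dist (g x) (g y) ≤ K * dist x y}.Nonempty := by
  obtain ⟨K, hK⟩ := g.2.1
  exact ⟨K, K.2, fun x y => hK.dist_le_mul x y⟩

lemma norm_def (g : Lip0 M z) :
    ‖g‖ = sInf {K : ℝ | 0 ≤ K ∧ ∀ x y, dist (g x) (g y) ≤ K * dist x y} := rfl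

lemma norm_nonneg' (g : Lip0 M z) : 0 ≤ ‖g‖ := Real.sInf_nonneg fun _ h => h.1

lemma norm_le_of {g : Lip0 M z} {K : ℝ} (hK : 0 ≤ K)
    (h : ∀ x y, dist (g x) (g y) ≤ K * dist x y) : ‖g‖ ≤ K :=
  csInf_le g.bddBelow ⟨hK, h⟩

lemma dist_le (g : Lip0 M z) (x y : M) : dist (g x) (g y) ≤ ‖g‖ * dist x y := by
  rcases eq_or_ne x y with rfl | hxy
  · simp
  have hd : 0 < dist x y := dist_pos.2 hxy
  rw [← div_le_iff₀ hd]
  refine le_csInf g.set_nonempty ?_
  rintro K ⟨-, hK⟩
  rw [div_le_iff₀ hd]
  exact hK x y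

lemma norm_apply_le (g : Lip0 M z) (x : M) : ‖g x‖ ≤ ‖g‖ * dist x z := by
  have := g.dist_le x z
  simpa [dist_eq_norm] using this

lemma core : NormedSpace.Core ℂ (Lip0 M z) where
  norm_nonneg := norm_nonneg'
  norm_smul := by
    have key : ∀ (c : ℂ) (g : Lip0 M z), ‖c • g‖ ≤ ‖c‖ * ‖g‖ := by
      intro c g
      refine norm_le_of (mul_nonneg (norm_nonneg c) g.norm_nonneg') fun x y => ?_
      have := g.dist_le x y
      rw [dist_eq_norm] at this ⊢
      change ‖c * g x - c * g y‖ ≤ _
      rw [← mul_sub, norm_mul, mul_assoc]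
      exact mul_le_mul_of_nonneg_left this (norm_nonneg c)
    intro c g
    refine le_antisymm (key c g) ?_
    rcases eq_or_ne c 0 with rfl | hc
    · simpa using norm_nonneg' _
    have h := key c⁻¹ (c • g)
    rw [smul_smul, inv_mul_cancel₀ hc, one_smul, norm_inv] at h
    have hc' : 0 < ‖c‖ := norm_pos_iff.2 hc
    rwa [inv_mul_eq_div, le_div_iff₀ hc', mul_comm] at h
  norm_triangle := by
    intro g h
    refine norm_le_of (add_nonneg g.norm_nonneg' h.norm_nonneg') fun x y => ?_
    have h1 := g.dist_le x y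
    have h2 := h.dist_le x y
    calc dist ((g + h) x) ((g + h) y) ≤ dist (g x) (g y) + dist (h x) (h y) :=
          dist_add_add_le _ _ _ _
      _ ≤ (‖g‖ + ‖h‖) * dist x y := by linarith
  norm_eq_zero_iff := by
    intro g
    constructor
    · intro hg
      ext x
      have := g.norm_apply_le x
      rw [hg, zero_mul] at this
      exact norm_le_zero_iff.1 this
    · rintro rfl
      refine le_antisymm (norm_le_of le_rfl fun x y => ?_) (norm_nonneg' _)
      change dist (0 : ℂ) 0 ≤ _
      simp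

end Lip0

noncomputable instance : NormedAddCommGroup (Lip0 M z) := NormedAddCommGroup.ofCore Lip0.core

noncomputable instance : NormedSpace ℂ (Lip0 M z) := NormedSpace.ofCore Lip0.core

end Defs

section Defs2

variable {M : Type u} [MetricSpace M] {z : M}

namespace Lip0

@[simp] lemma add_apply (g h : Lip0 M z) (x : M) : (g + h) x = g x + h x := rfl
@[simp] lemma sub_apply (g h : Lip0 M z) (x : M) : (g - h) x = g x - h x := rfl
@[simp] lemma smul_apply (c : ℂ) (g : Lip0 M z) (x : M) : (c • g) x = c * g x := rfl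
@[simp] lemma zero_apply (x : M) : (0 : Lip0 M z) x = 0 := rfl

end Lip0

variable (M z) in
/-- The dual Banach space `Lip₀(M)*`, with the operator norm. -/
def LipDual : Type u := StrongDual ℂ (Lip0 M z)

noncomputable instance : NormedAddCommGroup (LipDual M z) :=
  ContinuousLinearMap.toNormedAddCommGroup

noncomputable instance : NormedSpace ℂ (LipDual M z) := ContinuousLinearMap.toNormedSpace

noncomputable instance : CoeFun (LipDual M z) (fun _ => Lip0 M z → ℂ) :=
  ⟨fun φ => DFunLike.coe (F := StrongDual ℂ (Lip0 M z)) φ⟩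

/-- The evaluation functional `δ(x)` on `Lip₀(M)`. -/
noncomputable def delta (x : M) : LipDual M z :=
  LinearMap.mkContinuous
    { toFun := fun g : Lip0 M z => g x
      map_add' := fun _ _ => rfl
      map_smul' := fun _ _ => rfl } (dist x z) fun g => by
    rw [mul_comm]; exact g.norm_apply_le x

@[simp] lemma delta_apply (x : M) (g : Lip0 M z) : (delta x : LipDual M z) g = g x := rfl

variable (M z) in
/-- The closed linear span of the evaluations in `Lip₀(M)*`. -/
noncomputable def freeSub : Submodule ℂ (LipDual M z) :=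
  (Submodule.span ℂ (Set.range delta)).topologicalClosure

variable (M z) in
/-- The Lipschitz-free space `F(M)`: the closed linear span of the evaluations in `Lip₀(M)*`,
as a Banach space with the norm of `Lip₀(M)*`. -/
def FreeSpace : Type u := freeSub M z

noncomputable instance : NormedAddCommGroup (FreeSpace M z) :=
  Submodule.normedAddCommGroup (freeSub M z)

noncomputable instance : NormedSpace ℂ (FreeSpace M z) :=
  Submodule.normedSpace (freeSub M z)

instance : CompleteSpace (LipDual M z) :=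
  inferInstanceAs (CompleteSpace (StrongDual ℂ (Lip0 M z)))

instance : CompleteSpace (FreeSpace M z) :=
  (Submodule.isClosed_topologicalClosure
    (Submodule.span ℂ (Set.range (delta (M := M) (z := z))))).completeSpace_coe

namespace FreeSpace

/-- The functional on `Lip₀(M)` underlying an element of `F(M)`. -/
def toDual (γ : FreeSpace M z) : LipDual M z := Subtype.val (p := (· ∈ freeSub M z)) γ

lemma toDual_mem (γ : FreeSpace M z) : γ.toDual ∈ freeSub M z := γ.2

@[ext] lemma ext {γ γ' : FreeSpace M z} (h : ∀ g, γ.toDual g = γ'.toDual g) : γ = γ' :=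
  Subtype.ext (ContinuousLinearMap.ext h)

@[simp] lemma toDual_add (γ γ' : FreeSpace M z) (g : Lip0 M z) :
    (γ + γ').toDual g = γ.toDual g + γ'.toDual g := rfl
@[simp] lemma toDual_sub (γ γ' : FreeSpace M z) (g : Lip0 M z) :
    (γ - γ').toDual g = γ.toDual g - γ'.toDual g := rfl
@[simp] lemma toDual_smul (c : ℂ) (γ : FreeSpace M z) (g : Lip0 M z) :
    (c • γ).toDual g = c * γ.toDual g := rfl
@[simp] lemma toDual_zero (g : Lip0 M z) : (0 : FreeSpace M z).toDual g = 0 := rfl
lemma norm_toDual (γ : FreeSpace M z) : ‖γ.toDual‖ = ‖γ‖ := rfl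

end FreeSpace

namespace LipDual

lemma map_add (φ : LipDual M z) (g h : Lip0 M z) : φ (g + h) = φ g + φ h :=
  _root_.map_add (F := StrongDual ℂ (Lip0 M z)) φ g h
lemma map_sub (φ : LipDual M z) (g h : Lip0 M z) : φ (g - h) = φ g - φ h :=
  _root_.map_sub (F := StrongDual ℂ (Lip0 M z)) φ g h
lemma map_smul (φ : LipDual M z) (c : ℂ) (g : Lip0 M z) : φ (c • g) = c * φ g :=
  _root_.map_smul (F := StrongDual ℂ (Lip0 M z)) φ c g
lemma map_sum {ι : Type*} (φ : LipDual M z) (s : Finset ι) (g : ι → Lip0 M z) :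
    φ (∑ i ∈ s, g i) = ∑ i ∈ s, φ (g i) :=
  _root_.map_sum (G := StrongDual ℂ (Lip0 M z)) φ g s
lemma le_norm (φ : LipDual M z) (g : Lip0 M z) : ‖φ g‖ ≤ ‖φ‖ * ‖g‖ :=
  ContinuousLinearMap.le_opNorm (σ₁₂ := RingHom.id ℂ) φ g
@[simp] lemma add_apply (φ ψ : LipDual M z) (g : Lip0 M z) : (φ + ψ) g = φ g + ψ g := rfl
@[simp] lemma sub_apply (φ ψ : LipDual M z) (g : Lip0 M z) : (φ - ψ) g = φ g - ψ g := rfl
@[simp] lemma smul_apply (c : ℂ) (φ : LipDual M z) (g : Lip0 M z) : (c • φ) g = c * φ g := rfl
@[simp] lemma zero_apply (g : Lip0 M z) : (0 : LipDual M z) g = 0 := rfl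

end LipDual

/-- The Dirac element `δ(x)` of the free space `F(M)`. -/
noncomputable def dirac (x : M) : FreeSpace M z :=
  ⟨delta x, Submodule.le_topologicalClosure _ (Submodule.subset_span ⟨x, rfl⟩)⟩

@[simp] lemma toDual_dirac (x : M) (g : Lip0 M z) : (dirac x : FreeSpace M z).toDual g = g x := rfl

/-- The composition operator `g ↦ g ∘ f` on `Lip₀(M)`, for `f` Lipschitz with `f z = z`. -/
noncomputable def compOp {K : ℝ≥0} {f : M → M} (hf : LipschitzWith K f) (h0 : f z = z) :
    Lip0 M z →L[ℂ] Lip0 M z :=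
  LinearMap.mkContinuous
    { toFun := fun g =>
        ⟨fun x => g (f x), by
          obtain ⟨L, hL⟩ := g.2.1
          exact ⟨⟨L * K, hL.comp hf⟩, by simp [h0]⟩⟩
      map_add' := fun _ _ => rfl
      map_smul' := fun _ _ => rfl } K fun g => by
    refine Lip0.norm_le_of (by positivity) fun x y => ?_
    calc dist (g (f x)) (g (f y)) ≤ ‖g‖ * dist (f x) (f y) := g.dist_le _ _
      _ ≤ ‖g‖ * (K * dist x y) := by gcongr; exact hf.dist_le_mul x y
      _ = K * ‖g‖ * dist x y := by ring

@[simp] lemma compOp_apply {K : ℝ≥0} {f : M → M} (hf : LipschitzWith K f) (h0 : f z = z)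
    (g : Lip0 M z) (x : M) : compOp hf h0 g x = g (f x) := rfl

/-- The adjoint `φ ↦ φ ∘ (g ↦ g ∘ f)` of the composition operator, on `Lip₀(M)*`. -/
noncomputable def adjOp {K : ℝ≥0} {f : M → M} (hf : LipschitzWith K f) (h0 : f z = z) :
    LipDual M z →L[ℂ] LipDual M z :=
  (compOp hf h0).precomp ℂ

@[simp] lemma adjOp_apply {K : ℝ≥0} {f : M → M} (hf : LipschitzWith K f) (h0 : f z = z)
    (φ : LipDual M z) (g : Lip0 M z) : adjOp hf h0 φ g = φ (compOp hf h0 g) := rfl

lemma adjOp_mem {K : ℝ≥0} {f : M → M} (hf : LipschitzWith K f) (h0 : f z = z)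
    (φ : LipDual M z) (hφ : φ ∈ freeSub M z) : adjOp hf h0 φ ∈ freeSub M z := by
  have hφ' : φ ∈ closure (Submodule.span ℂ (Set.range (delta (z := z))) : Set (LipDual M z)) := hφ
  change adjOp hf h0 φ ∈
    closure (Submodule.span ℂ (Set.range (delta (z := z))) : Set (LipDual M z))
  refine map_mem_closure (adjOp hf h0).continuous hφ' ?_
  intro φ hφ
  induction hφ using Submodule.span_induction with
  | mem φ h =>
    obtain ⟨x, rfl⟩ := h
    exact Submodule.subset_span ⟨f x, rfl⟩
  | zero => rw [map_zero]; exact Submodule.zero_mem _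
  | add a b _ _ ha hb => rw [map_add]; exact Submodule.add_mem _ ha hb
  | smul c a _ ha => rw [map_smul]; exact Submodule.smul_mem _ c ha

/-- The linearization `f̂ : F(M) → F(M)` of a Lipschitz map `f : M → M` with `f z = z`: the
restriction to `F(M)` of the adjoint of the composition operator. It is the unique bounded linear
operator on `F(M)` with `f̂ (δ(x)) = δ(f x)`, see `hat_dirac` and `eq_hat`. -/
noncomputable def hat {K : ℝ≥0} {f : M → M} (hf : LipschitzWith K f) (h0 : f z = z) :
    FreeSpace M z →L[ℂ] FreeSpace M z :=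
  (adjOp hf h0).restrict (adjOp_mem hf h0)

@[simp] lemma hat_apply {K : ℝ≥0} {f : M → M} (hf : LipschitzWith K f) (h0 : f z = z)
    (γ : FreeSpace M z) (g : Lip0 M z) :
    (hat hf h0 γ).toDual g = γ.toDual (compOp hf h0 g) := rfl

lemma hat_dirac {K : ℝ≥0} {f : M → M} (hf : LipschitzWith K f) (h0 : f z = z) (x : M) :
    hat hf h0 (dirac x) = dirac (f x) := rfl

/-- The spectrum `σ(T)` of a bounded operator on a complex normed space: the set of `lam : ℂ`
such that `T - lam I` is not bijective. -/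
def sigma {E : Type u} [NormedAddCommGroup E] [NormedSpace ℂ E] (T : E →L[ℂ] E) : Set ℂ :=
  {lam | ¬ Function.Bijective (fun v => T v - lam • v)}

lemma sigma_eq_spectrum {E : Type u} [NormedAddCommGroup E] [NormedSpace ℂ E] [CompleteSpace E]
    (T : E →L[ℂ] E) : sigma T = spectrum ℂ T := by
  ext lam
  rw [spectrum.mem_iff, ← IsUnit.neg_iff, ContinuousLinearMap.isUnit_iff_bijective]
  have h : (fun v => T v - lam • v) = ⇑(-(algebraMap ℂ (E →L[ℂ] E) lam - T)) := by
    ext v
    simp [Algebra.algebraMap_eq_smul_one]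
  change ¬ Function.Bijective (fun v => T v - lam • v) ↔ _
  rw [h]

/-- The set `A(f)` of orders of periodic points of `f` other than the base point. -/
def orders (f : M → M) (z : M) : Set ℕ :=
  {n | 1 ≤ n ∧ ∃ x, x ≠ z ∧ f^[n] x = x ∧ ∀ k, 1 ≤ k → k < n → f^[k] x ≠ x}

end Defs2

section Basic

variable {M : Type u} [MetricSpace M] {z : M}

/-- The span of the Dirac elements is dense in `F(M)`. -/
lemma dense_span_dirac (γ : FreeSpace M z) :
    γ ∈ closure (Submodule.span ℂ (Set.range (dirac (z := z))) : Set (FreeSpace M z)) := by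
  have h1 : γ.toDual ∈ closure (Submodule.span ℂ (Set.range (delta (z := z))) : Set _) :=
    γ.toDual_mem
  rw [Metric.mem_closure_iff] at h1 ⊢
  intro ε hε
  obtain ⟨φ, hφ, hd⟩ := h1 ε hε
  have h2 : ∀ φ ∈ Submodule.span ℂ (Set.range (delta (M := M) (z := z))),
      ∃ γ' ∈ Submodule.span ℂ (Set.range (dirac (M := M) (z := z))), γ'.toDual = φ := by
    intro φ hφ
    induction hφ using Submodule.span_induction with
    | mem φ h =>
      obtain ⟨x, rfl⟩ := h
      exact ⟨dirac x, Submodule.subset_span ⟨x, rfl⟩, rfl⟩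
    | zero => exact ⟨0, Submodule.zero_mem _, rfl⟩
    | add a b _ _ ha hb =>
      obtain ⟨a', ha', rfl⟩ := ha
      obtain ⟨b', hb', rfl⟩ := hb
      exact ⟨a' + b', Submodule.add_mem _ ha' hb', rfl⟩
    | smul c a _ ha =>
      obtain ⟨a', ha', rfl⟩ := ha
      exact ⟨c • a', Submodule.smul_mem _ c ha', rfl⟩
  obtain ⟨γ', hγ', rfl⟩ := h2 φ hφ
  exact ⟨γ', hγ', hd⟩

/-- `hat hf h0` is the only bounded operator on `F(M)` sending `δ(x)` to `δ(f x)`. -/
lemma eq_hat {K : ℝ≥0} {f : M → M} (hf : LipschitzWith K f) (h0 : f z = z)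
    (T : FreeSpace M z →L[ℂ] FreeSpace M z) (hT : ∀ x, T (dirac x) = dirac (f x)) :
    T = hat hf h0 := by
  ext1 γ
  have hcl : IsClosed {γ : FreeSpace M z | T γ = hat hf h0 γ} :=
    isClosed_eq T.continuous (hat hf h0).continuous
  refine closure_minimal ?_ hcl (dense_span_dirac γ)
  intro φ hφ
  change T φ = hat hf h0 φ
  induction hφ using Submodule.span_induction with
  | mem φ h =>
    obtain ⟨x, rfl⟩ := h
    rw [hT, hat_dirac]
  | zero => rw [map_zero, map_zero]
  | add a b _ _ ha hb => rw [map_add, map_add, ha, hb]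
  | smul c a _ ha => rw [map_smul, map_smul, ha]

lemma norm_dirac_sub (x y : M) : ‖(dirac x : FreeSpace M z) - dirac y‖ = dist x y := by
  refine le_antisymm ?_ ?_
  · refine ContinuousLinearMap.opNorm_le_bound _ dist_nonneg fun g => ?_
    have := g.dist_le x y
    rw [dist_eq_norm] at this
    rw [mul_comm]
    exact this
  · have h1 : LipschitzWith 1 (fun w : M => ((dist w y - dist z y : ℝ) : ℂ)) := by
      refine LipschitzWith.of_dist_le_mul fun a b => ?_
      rw [dist_eq_norm, ← Complex.ofReal_sub, Complex.norm_real, Real.norm_eq_abs]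
      have := abs_dist_sub_le a b y
      simpa using this
    let g : Lip0 M z := Lip0.mk _ 1 h1 (by simp)
    have hg : ‖g‖ ≤ 1 := Lip0.norm_le_of zero_le_one fun a b => h1.dist_le_mul a b
    have h2 : ‖((dirac x : FreeSpace M z) - dirac y).toDual g‖ ≤
        ‖(dirac x : FreeSpace M z) - dirac y‖ * ‖g‖ :=
      ContinuousLinearMap.le_opNorm _ _
    have h3 : ((dirac x : FreeSpace M z) - dirac y).toDual g = ((dist x y : ℝ) : ℂ) := by
      change g x - g y = _
      simp [g, dist_self]
    rw [h3, Complex.norm_real, Real.norm_eq_abs, abs_of_nonneg dist_nonneg] at h2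
    refine h2.trans ?_
    exact mul_le_of_le_one_right (norm_nonneg _) hg

lemma dirac_base : (dirac z : FreeSpace M z) = 0 := by
  ext g
  exact g.map_base

lemma norm_dirac (x : M) : ‖(dirac x : FreeSpace M z)‖ = dist x z := by
  have := norm_dirac_sub (z := z) x z
  rwa [dirac_base, sub_zero] at this

/-- Elements of the free space are continuous for bounded pointwise convergence. -/
lemma tendsto_of_pointwise (γ : FreeSpace M z) (g : ℕ → Lip0 M z) (g0 : Lip0 M z) (C : ℝ)
    (hC : ∀ n, ‖g n‖ ≤ C) (hp : ∀ x, Tendsto (fun n => g n x) atTop (𝓝 (g0 x))) :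
    Tendsto (fun n => γ.toDual (g n)) atTop (𝓝 (γ.toDual g0)) := by
  have hspan : ∀ φ ∈ Submodule.span ℂ (Set.range (delta (z := z))),
      Tendsto (fun n => φ (g n)) atTop (𝓝 (φ g0)) := by
    intro φ hφ
    induction hφ using Submodule.span_induction with
    | mem φ h =>
      obtain ⟨x, rfl⟩ := h
      exact hp x
    | zero => simp
    | add a b _ _ ha hb => simpa using ha.add hb
    | smul c a _ ha => simpa using ha.const_mul c
  have hγ : γ.toDual ∈ closure (Submodule.span ℂ (Set.range (delta (z := z))) : Set _) :=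
    γ.toDual_mem
  rw [Metric.tendsto_atTop]
  intro ε hε
  set D : ℝ := |C| + ‖g0‖ + 1 with hD
  have hDpos : 0 < D := by positivity
  obtain ⟨φ, hφ, hd⟩ := Metric.mem_closure_iff.1 hγ (ε / (2 * D)) (by positivity)
  obtain ⟨n0, hn0⟩ := Metric.tendsto_atTop.1 (hspan φ hφ) (ε / 2) (by positivity)
  refine ⟨n0, fun n hn => ?_⟩
  have h1 := hn0 n hn
  rw [dist_eq_norm] at h1 ⊢
  rw [dist_eq_norm] at hd
  have h2 : γ.toDual (g n) - γ.toDual g0 = (γ.toDual - φ) (g n - g0) + (φ (g n) - φ g0) := by
    rw [LipDual.map_sub, LipDual.sub_apply, LipDual.sub_apply]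
    ring
  rw [h2]
  have h3 : ‖(γ.toDual - φ) (g n - g0)‖ ≤ ε / (2 * D) * D := by
    refine (LipDual.le_norm _ _).trans ?_
    have h4 : ‖g n - g0‖ ≤ D := by
      have := norm_sub_le (g n) g0
      have := hC n
      have := le_abs_self C
      linarith
    exact mul_le_mul hd.le h4 (norm_nonneg _) (by positivity)
  have h5 : ε / (2 * D) * D = ε / 2 := by field_simp
  calc ‖(γ.toDual - φ) (g n - g0) + (φ (g n) - φ g0)‖ ≤ _ := norm_add_le _ _
    _ < ε := by linarith

/-- Multiplying a Lipschitz function by a cut-off. -/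
lemma cutoff_bound {u : M → ℂ} {w : M → ℝ} {A c : ℝ} (hA : 0 ≤ A) (hc : 0 < c)
    (hu : ∀ x y, ‖u x - u y‖ ≤ A * dist x y) (hw0 : ∀ x, 0 ≤ w x) (hw1 : ∀ x, w x ≤ 1)
    (hw : ∀ x y, |w x - w y| ≤ c * dist x y)
    (H : ∀ x y, w x ≠ w y → ‖u x‖ ≤ 2 * A / c ∨ ‖u y‖ ≤ 2 * A / c) (x y : M) :
    ‖u x * (w x : ℂ) - u y * (w y : ℂ)‖ ≤ 3 * A * dist x y := by
  have key : ∀ x y, ‖u y‖ ≤ 2 * A / c →
      ‖u x * (w x : ℂ) - u y * (w y : ℂ)‖ ≤ 3 * A * dist x y := by
    intro x y h
    have e : u x * (w x : ℂ) - u y * (w y : ℂ) =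
        (u x - u y) * (w x : ℂ) + u y * ((w x - w y : ℝ) : ℂ) := by
      push_cast; ring
    rw [e]
    refine (norm_add_le _ _).trans ?_
    rw [norm_mul, norm_mul, Complex.norm_real, Complex.norm_real, Real.norm_eq_abs,
      Real.norm_eq_abs, abs_of_nonneg (hw0 x)]
    have h1 : ‖u x - u y‖ * w x ≤ A * dist x y * 1 :=
      mul_le_mul (hu x y) (hw1 x) (hw0 x) (by positivity)
    have h2 : ‖u y‖ * |w x - w y| ≤ (2 * A / c) * (c * dist x y) :=
      mul_le_mul h (hw x y) (abs_nonneg _) (by positivity)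
    have h3 : (2 * A / c) * (c * dist x y) = 2 * A * dist x y := by field_simp
    linarith
  by_cases hxy : w x = w y
  · rw [hxy, ← sub_mul, norm_mul, Complex.norm_real, Real.norm_eq_abs, abs_of_nonneg (hw0 y)]
    have h1 : ‖u x - u y‖ * w y ≤ A * dist x y * 1 :=
      mul_le_mul (hu x y) (hw1 y) (hw0 y) (by positivity)
    have : 0 ≤ A * dist x y := by positivity
    linarith
  · rcases H x y hxy with h | h
    · rw [norm_sub_rev, dist_comm]
      exact key y x h
    · exact key x y h

end Basic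

section Flatness

variable {M : Type u} [MetricSpace M] {z : M} {K : ℝ≥0} {f : M → M}

/-- Limits of images of molecules under a compact `hat f`. -/
lemma exists_limit (hf : LipschitzWith K f) (h0 : f z = z)
    (hc : IsCompactOperator (hat hf h0)) {ε : ℝ} (hε : 0 < ε) (x y : ℕ → M)
    (hxy : ∀ n, ε * dist (x n) (y n) < dist (f (x n)) (f (y n))) :
    ∃ φ : ℕ → ℕ, StrictMono φ ∧ ∃ γ : FreeSpace M z, γ ≠ 0 ∧ ∀ g : Lip0 M z,
      Tendsto (fun n => ((dist (x (φ n)) (y (φ n)) : ℝ) : ℂ)⁻¹ *
        (g (f (x (φ n))) - g (f (y (φ n))))) atTop (𝓝 (γ.toDual g)) := by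
  have hne : ∀ n, x n ≠ y n := by
    intro n h
    have := hxy n
    rw [h] at this
    simp at this
  have hd : ∀ n, 0 < dist (x n) (y n) := fun n => dist_pos.2 (hne n)
  let m : ℕ → FreeSpace M z := fun n =>
    ((dist (x n) (y n) : ℝ) : ℂ)⁻¹ • ((dirac (x n) : FreeSpace M z) - dirac (y n))
  have hm : ∀ n, ‖m n‖ ≤ 1 := by
    intro n
    rw [norm_smul, norm_dirac_sub, norm_inv, Complex.norm_real, Real.norm_eq_abs,
      abs_of_pos (hd n), inv_mul_cancel₀ (hd n).ne']
  have hTm : ∀ n, hat hf h0 (m n) =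
      ((dist (x n) (y n) : ℝ) : ℂ)⁻¹ • ((dirac (f (x n)) : FreeSpace M z) - dirac (f (y n))) := by
    intro n
    rw [map_smul, map_sub, hat_dirac, hat_dirac]
  have hTm' : ∀ n, ε ≤ ‖hat hf h0 (m n)‖ := by
    intro n
    rw [hTm, norm_smul, norm_dirac_sub, norm_inv, Complex.norm_real, Real.norm_eq_abs,
      abs_of_pos (hd n), inv_mul_eq_div, le_div_iff₀ (hd n)]
    exact (hxy n).le
  obtain ⟨C, hC, hC'⟩ := hc.image_closedBall_subset_compact 1
  obtain ⟨γ, -, φ, hφ, hlim⟩ := hC.tendsto_subseq (x := fun n => hat hf h0 (m n))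
    (fun n => hC' ⟨m n, by simpa using hm n, rfl⟩)
  refine ⟨φ, hφ, γ, ?_, fun g => ?_⟩
  · rintro rfl
    have h1 : Tendsto (fun n => ‖hat hf h0 (m (φ n))‖) atTop (𝓝 0) := by
      simpa using hlim.norm
    have h2 := ge_of_tendsto' h1 (fun n => hTm' (φ n))
    exact absurd hε (not_lt.2 h2)
  · have hcont : Continuous (fun γ : FreeSpace M z => γ.toDual g) := by
      have h1 : Continuous (fun γ : FreeSpace M z => γ.toDual) := continuous_subtype_val
      exact h1.clm_apply continuous_const
    have h3 := (hcont.tendsto γ).comp hlim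
    refine h3.congr fun n => ?_
    simp only [Function.comp]
    rw [hTm]
    rfl

/-- Compactness of `hat f` forces `f` to be flat at infinity in the range. -/
lemma flat_at_infinity (hf : LipschitzWith K f) (h0 : f z = z)
    (hc : IsCompactOperator (hat hf h0)) {ε : ℝ} (hε : 0 < ε) :
    ∃ R > 0, ∀ x y, R ≤ dist (f x) z → dist (f x) (f y) ≤ ε * dist x y := by
  by_contra hcon
  push Not at hcon
  choose x y hR hxy using fun n : ℕ => hcon ((n : ℝ) + 1) (by positivity)
  obtain ⟨φ, hφ, γ, hγ, hlim⟩ := exists_limit hf h0 hc hε x y hxy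
  obtain ⟨g, hg⟩ : ∃ g : Lip0 M z, γ.toDual g ≠ 0 := by
    by_contra h
    push Not at h
    exact hγ (FreeSpace.ext fun g => by rw [h g]; rfl)
  -- cut-offs
  let w : ℕ → M → ℝ := fun j a => max 0 (min 1 (2 - dist a z / ((j : ℝ) + 1)))
  have hw0 : ∀ j a, 0 ≤ w j a := fun j a => le_max_left _ _
  have hw1 : ∀ j a, w j a ≤ 1 := fun j a => max_le zero_le_one (min_le_left _ _)
  have hw : ∀ j a b, |w j a - w j b| ≤ ((j : ℝ) + 1)⁻¹ * dist a b := by
    intro j a b
    have h1 : |w j a - w j b| ≤
        |(2 - dist a z / ((j : ℝ) + 1)) - (2 - dist b z / ((j : ℝ) + 1))| := by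
      refine (abs_max_sub_max_le_max _ _ _ _).trans ?_
      simp only [sub_self, abs_zero]
      refine max_le (abs_nonneg _) ?_
      refine (abs_min_sub_min_le_max _ _ _ _).trans ?_
      simp
    refine h1.trans ?_
    have h2 : (2 - dist a z / ((j : ℝ) + 1)) - (2 - dist b z / ((j : ℝ) + 1)) =
        ((j : ℝ) + 1)⁻¹ * (dist b z - dist a z) := by
      field_simp
      ring
    rw [h2, abs_mul, abs_of_pos (by positivity : (0 : ℝ) < ((j : ℝ) + 1)⁻¹)]
    refine mul_le_mul_of_nonneg_left ?_ (by positivity)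
    rw [dist_comm a b]
    exact abs_dist_sub_le b a z
  have hwpos : ∀ j a, 0 < w j a → dist a z ≤ 2 * ((j : ℝ) + 1) := by
    intro j a h
    have h1 : 0 < 2 - dist a z / ((j : ℝ) + 1) := by
      by_contra h2
      push Not at h2
      have : w j a = 0 := by
        simp only [w]
        rw [max_eq_left]
        exact (min_le_right _ _).trans h2
      linarith
    rw [sub_pos, div_lt_iff₀ (by positivity)] at h1
    exact h1.le
  have hcut : ∀ j a b, ‖g a * (w j a : ℂ) - g b * (w j b : ℂ)‖ ≤ 3 * ‖g‖ * dist a b := by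
    intro j
    refine cutoff_bound (norm_nonneg g) (by positivity : (0 : ℝ) < ((j : ℝ) + 1)⁻¹)
      (fun a b => by rw [← dist_eq_norm]; exact g.dist_le a b) (hw0 j) (hw1 j) (hw j) ?_
    intro a b hab
    have h3 : ∀ a, 0 < w j a → ‖g a‖ ≤ 2 * ‖g‖ / ((j : ℝ) + 1)⁻¹ := by
      intro a ha
      refine (g.norm_apply_le a).trans ?_
      have := mul_le_mul_of_nonneg_left (hwpos j a ha) (norm_nonneg g)
      refine this.trans (le_of_eq ?_)
      field_simp
    rcases (hw0 j a).eq_or_lt with ha | ha
    · right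
      refine h3 b (lt_of_le_of_ne (hw0 j b) ?_)
      intro hb
      exact hab (ha.symm.trans hb)
    · left
      exact h3 a ha
  let G : ℕ → Lip0 M z := fun j =>
    Lip0.mk (fun a => g a * (w j a : ℂ)) ⟨3 * ‖g‖, by positivity⟩
      (LipschitzWith.of_dist_le_mul fun a b => by
        rw [dist_eq_norm]; exact hcut j a b) (by simp)
  have hG : ∀ j, ‖G j‖ ≤ 3 * ‖g‖ := fun j =>
    Lip0.norm_le_of (by positivity) fun a b => by rw [dist_eq_norm]; exact hcut j a b
  have hGlim : ∀ a, Tendsto (fun j => G j a) atTop (𝓝 (g a)) := by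
    intro a
    obtain ⟨j0, hj0⟩ := exists_nat_ge (dist a z)
    refine tendsto_const_nhds.congr' ?_
    filter_upwards [eventually_ge_atTop j0] with j hj
    have h1 : w j a = 1 := by
      have h2 : dist a z / ((j : ℝ) + 1) ≤ 1 := by
        rw [div_le_one (by positivity)]
        have : (j0 : ℝ) ≤ j := by exact_mod_cast hj
        linarith
      simp only [w]
      rw [min_eq_left (by linarith)]
      simp
    simp [G, h1]
  have hγG := tendsto_of_pointwise γ G g _ hG hGlim
  have hzero : ∀ j, γ.toDual (G j) = 0 := by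
    intro j
    refine tendsto_nhds_unique (hlim (G j)) ?_
    have hev : ∀ n, 2 * ((j : ℝ) + 1) < (φ n : ℝ) + 1 → G j (f (x (φ n))) = 0 := by
      intro n hn
      have h1 := hR (φ n)
      have h2 : ¬ 0 < w j (f (x (φ n))) := by
        intro h
        have := hwpos j _ h
        linarith
      have h3 : w j (f (x (φ n))) = 0 := le_antisymm (not_lt.1 h2) (hw0 _ _)
      simp [G, h3]
    have hφ' : Tendsto (fun n => (φ n : ℝ)) atTop atTop :=
      tendsto_natCast_atTop_atTop.comp hφ.tendsto_atTop
    -- bound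
    set B : ℝ := ‖g‖ * (2 * ((j : ℝ) + 1)) with hB
    have hBnn : 0 ≤ B := by positivity
    have hGb : ∀ a, ‖G j a‖ ≤ B := by
      intro a
      rcases (hw0 j a).eq_or_lt with ha | ha
      · simp [G, ← ha, hBnn]
      · have h1 : ‖G j a‖ ≤ ‖g a‖ * 1 := by
          simp only [G, Lip0.mk_apply, norm_mul, Complex.norm_real, Real.norm_eq_abs]
          rw [abs_of_pos ha]
          exact mul_le_mul_of_nonneg_left (hw1 j a) (norm_nonneg _)
        rw [mul_one] at h1
        refine h1.trans ((g.norm_apply_le a).trans ?_)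
        exact mul_le_mul_of_nonneg_left (hwpos j a ha) (norm_nonneg g)
    have hbound : ∀ᶠ n in atTop, ‖((dist (x (φ n)) (y (φ n)) : ℝ) : ℂ)⁻¹ *
        (G j (f (x (φ n))) - G j (f (y (φ n))))‖ ≤
        B * (((K : ℝ) + 1)) / ((φ n : ℝ) - 2 * ((j : ℝ) + 1)) := by
      filter_upwards [hφ'.eventually_gt_atTop (2 * ((j : ℝ) + 1))] with n hn
      rw [hev n (by linarith), zero_sub, norm_mul, norm_neg, norm_inv, Complex.norm_real,
        Real.norm_eq_abs, abs_of_nonneg dist_nonneg]
      have hden : 0 < (φ n : ℝ) - 2 * ((j : ℝ) + 1) := by linarith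
      rcases (hw0 j (f (y (φ n)))).eq_or_lt with ha | ha
      · have : G j (f (y (φ n))) = 0 := by simp [G, ← ha]
        rw [this, norm_zero, mul_zero]
        positivity
      · have h1 := hwpos j _ ha
        have h2 := hR (φ n)
        have h3 : (φ n : ℝ) - 2 * ((j : ℝ) + 1) ≤ dist (f (x (φ n))) (f (y (φ n))) := by
          have := dist_triangle (f (x (φ n))) (f (y (φ n))) z
          linarith
        have h4 : dist (f (x (φ n))) (f (y (φ n))) ≤ K * dist (x (φ n)) (y (φ n)) :=
          hf.dist_le_mul _ _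
        have hdpos : 0 < dist (x (φ n)) (y (φ n)) := by
          by_contra h
          have : dist (x (φ n)) (y (φ n)) = 0 := le_antisymm (not_lt.1 h) dist_nonneg
          rw [this, mul_zero] at h4
          linarith
        have h5 : (dist (x (φ n)) (y (φ n)))⁻¹ ≤
            ((K : ℝ) + 1) / ((φ n : ℝ) - 2 * ((j : ℝ) + 1)) := by
          rw [inv_eq_one_div, div_le_div_iff₀ hdpos hden]
          have : (K : ℝ) * dist (x (φ n)) (y (φ n)) ≤
            ((K : ℝ) + 1) * dist (x (φ n)) (y (φ n)) := by nlinarith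
          linarith
        calc (dist (x (φ n)) (y (φ n)))⁻¹ * ‖G j (f (y (φ n)))‖ ≤
            (((K : ℝ) + 1) / ((φ n : ℝ) - 2 * ((j : ℝ) + 1))) * B := by
              refine mul_le_mul h5 (hGb _) (norm_nonneg _) (by positivity)
          _ = _ := by ring
    refine squeeze_zero_norm' hbound ?_
    have h6 : Tendsto (fun n => (φ n : ℝ) - 2 * ((j : ℝ) + 1)) atTop atTop :=
      tendsto_atTop_add_const_right _ _ hφ'
    exact h6.const_div_atTop _
  have : γ.toDual g = 0 := by
    refine tendsto_nhds_unique hγG ?_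
    simp [hzero]
  exact hg this

lemma isometry_dirac : Isometry (dirac : M → FreeSpace M z) :=
  Isometry.of_dist_eq fun x y => by rw [dist_eq_norm, norm_dirac_sub]

/-- `f` maps balls into compact sets. -/
lemma exists_compact [CompleteSpace M] (hf : LipschitzWith K f) (h0 : f z = z)
    (hc : IsCompactOperator (hat hf h0)) (R : ℝ) :
    ∃ C : Set M, IsCompact C ∧ ∀ x, dist x z ≤ R → f x ∈ C := by
  obtain ⟨C, hC, hC'⟩ := hc.image_closedBall_subset_compact R
  refine ⟨dirac ⁻¹' C, isometry_dirac.isClosedEmbedding.isCompact_preimage hC, fun x hx => ?_⟩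
  have h1 : (dirac x : FreeSpace M z) ∈ Metric.closedBall 0 R := by
    rw [mem_closedBall_zero_iff, norm_dirac]
    exact hx
  exact hC' ⟨_, h1, rfl⟩

/-- Compactness of `hat f` forces `f` to be uniformly locally flat on balls. -/
lemma locally_flat [CompleteSpace M] (hf : LipschitzWith K f) (h0 : f z = z)
    (hc : IsCompactOperator (hat hf h0)) {ε : ℝ} (hε : 0 < ε) (R : ℝ) :
    ∃ r > 0, ∀ x y, dist x z ≤ R → dist y z ≤ R → dist x y < r →
      dist (f x) (f y) ≤ ε * dist x y := by
  by_contra hcon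
  push Not at hcon
  choose x y hxR hyR hr hxy using fun n : ℕ => hcon ((n : ℝ) + 1)⁻¹ (by positivity)
  obtain ⟨φ, hφ, γ, hγ, hlim⟩ := exists_limit hf h0 hc hε x y hxy
  obtain ⟨g, hg⟩ : ∃ g : Lip0 M z, γ.toDual g ≠ 0 := by
    by_contra h
    push Not at h
    exact hγ (FreeSpace.ext fun g => by rw [h g]; rfl)
  -- a limit point of the images
  obtain ⟨C, hC, hfC⟩ := exists_compact hf h0 hc R
  obtain ⟨p, -, ψ, hψ, hp⟩ := hC.tendsto_subseq (x := fun n => f (x (φ n)))
    (fun n => hfC _ (hxR _))
  have hdist : Tendsto (fun n => dist (x (φ (ψ n))) (y (φ (ψ n)))) atTop (𝓝 0) := by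
    have h1 : Tendsto (fun n : ℕ => ((n : ℝ) + 1)⁻¹) atTop (𝓝 0) := by
      have := tendsto_one_div_add_atTop_nhds_zero_nat (𝕜 := ℝ)
      simpa using this
    have h2 := h1.comp (hφ.comp hψ).tendsto_atTop
    exact squeeze_zero (fun n => dist_nonneg) (fun n => (hr (φ (ψ n))).le) h2
  have hp' : Tendsto (fun n => f (y (φ (ψ n)))) atTop (𝓝 p) := by
    refine hp.congr_dist ?_
    have h1 : Tendsto (fun n => (K : ℝ) * dist (x (φ (ψ n))) (y (φ (ψ n)))) atTop (𝓝 0) := by
      simpa using hdist.const_mul (K : ℝ)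
    exact squeeze_zero (fun n => dist_nonneg) (fun n => hf.dist_le_mul _ _) h1
  -- cut-offs around `p`
  let u : M → ℂ := fun a => g a - g p
  let w : ℕ → M → ℝ := fun j a => max 0 (min 1 (((j : ℝ) + 1) * dist a p - 1))
  have hw0 : ∀ j a, 0 ≤ w j a := fun j a => le_max_left _ _
  have hw1 : ∀ j a, w j a ≤ 1 := fun j a => max_le zero_le_one (min_le_left _ _)
  have hw : ∀ j a b, |w j a - w j b| ≤ ((j : ℝ) + 1) * dist a b := by
    intro j a b
    have h1 : |w j a - w j b| ≤
        |(((j : ℝ) + 1) * dist a p - 1) - (((j : ℝ) + 1) * dist b p - 1)| := by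
      refine (abs_max_sub_max_le_max _ _ _ _).trans ?_
      simp only [sub_self, abs_zero]
      refine max_le (abs_nonneg _) ?_
      refine (abs_min_sub_min_le_max _ _ _ _).trans ?_
      simp
    refine h1.trans ?_
    have h2 : (((j : ℝ) + 1) * dist a p - 1) - (((j : ℝ) + 1) * dist b p - 1) =
        ((j : ℝ) + 1) * (dist a p - dist b p) := by ring
    rw [h2, abs_mul, abs_of_pos (by positivity : (0 : ℝ) < (j : ℝ) + 1)]
    exact mul_le_mul_of_nonneg_left (abs_dist_sub_le a b p) (by positivity)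
  have hwlt : ∀ j a, w j a < 1 → dist a p ≤ 2 / ((j : ℝ) + 1) := by
    intro j a h
    have h1 : ((j : ℝ) + 1) * dist a p - 1 < 1 := by
      by_contra h2
      push Not at h2
      have : w j a = 1 := by
        simp only [w]
        rw [min_eq_left h2, max_eq_right zero_le_one]
      linarith
    rw [le_div_iff₀ (by positivity)]
    linarith
  have hu : ∀ a b, ‖u a - u b‖ ≤ ‖g‖ * dist a b := by
    intro a b
    have : u a - u b = g a - g b := by simp only [u]; ring
    rw [this, ← dist_eq_norm]
    exact g.dist_le a b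
  have hcut : ∀ j a b, ‖u a * (w j a : ℂ) - u b * (w j b : ℂ)‖ ≤ 3 * ‖g‖ * dist a b := by
    intro j
    refine cutoff_bound (norm_nonneg g) (by positivity : (0 : ℝ) < (j : ℝ) + 1)
      hu (hw0 j) (hw1 j) (hw j) ?_
    intro a b hab
    have h3 : ∀ a, w j a < 1 → ‖u a‖ ≤ 2 * ‖g‖ / ((j : ℝ) + 1) := by
      intro a ha
      have h4 : ‖u a‖ ≤ ‖g‖ * dist a p := by
        have := hu a p
        simpa [u] using this
      refine h4.trans ?_
      have := mul_le_mul_of_nonneg_left (hwlt j a ha) (norm_nonneg g)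
      refine this.trans (le_of_eq ?_)
      ring
    rcases (hw1 j a).eq_or_lt with ha | ha
    · right
      refine h3 b (lt_of_le_of_ne (hw1 j b) ?_)
      intro hb
      exact hab (ha.trans hb.symm)
    · left
      exact h3 a ha
  let G : ℕ → Lip0 M z := fun j =>
    Lip0.mk (fun a => u a * (w j a : ℂ) - u z * (w j z : ℂ)) ⟨3 * ‖g‖, by positivity⟩
      (LipschitzWith.of_dist_le_mul fun a b => by
        rw [dist_eq_norm, sub_sub_sub_cancel_right]; exact hcut j a b) (by simp)
  have hG : ∀ j, ‖G j‖ ≤ 3 * ‖g‖ := fun j =>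
    Lip0.norm_le_of (by positivity) fun a b => by
      rw [dist_eq_norm]
      simp only [G, Lip0.mk_apply]
      rw [sub_sub_sub_cancel_right]; exact hcut j a b
  have hulim : ∀ a, Tendsto (fun j => u a * (w j a : ℂ)) atTop (𝓝 (u a)) := by
    intro a
    rcases eq_or_ne a p with rfl | hap
    · simp [u]
    have hd : 0 < dist a p := dist_pos.2 hap
    obtain ⟨j0, hj0⟩ := exists_nat_ge (2 / dist a p)
    refine tendsto_const_nhds.congr' ?_
    filter_upwards [eventually_ge_atTop j0] with j hj
    have h1 : w j a = 1 := by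
      have h2 : 2 ≤ ((j : ℝ) + 1) * dist a p := by
        rw [← div_le_iff₀ hd]
        have : (j0 : ℝ) ≤ j := by exact_mod_cast hj
        linarith
      simp only [w]
      rw [min_eq_left (by linarith), max_eq_right zero_le_one]
    simp [h1]
  have hGlim : ∀ a, Tendsto (fun j => G j a) atTop (𝓝 (g a)) := by
    intro a
    have h1 := (hulim a).sub (hulim z)
    have h2 : u a - u z = g a := by simp [u]
    rw [h2] at h1
    exact h1
  have hγG := tendsto_of_pointwise γ G g _ hG hGlim
  have hzero : ∀ j, γ.toDual (G j) = 0 := by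
    intro j
    refine tendsto_nhds_unique ((hlim (G j)).comp hψ.tendsto_atTop) ?_
    have hnear : ∀ a, dist a p < ((j : ℝ) + 1)⁻¹ → w j a = 0 := by
      intro a ha
      have h1 : ((j : ℝ) + 1) * dist a p ≤ 1 := by
        have h2 := mul_lt_mul_of_pos_left ha (by positivity : (0 : ℝ) < (j : ℝ) + 1)
        rw [mul_inv_cancel₀ (by positivity)] at h2
        exact h2.le
      simp only [w]
      rw [max_eq_left]
      exact (min_le_right _ _).trans (by linarith)
    have e1 : ∀ᶠ n in atTop, dist (f (x (φ (ψ n)))) p < ((j : ℝ) + 1)⁻¹ :=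
      (Metric.tendsto_nhds.1 hp) _ (by positivity)
    have e2 : ∀ᶠ n in atTop, dist (f (y (φ (ψ n)))) p < ((j : ℝ) + 1)⁻¹ :=
      (Metric.tendsto_nhds.1 hp') _ (by positivity)
    refine tendsto_const_nhds.congr' ?_
    filter_upwards [e1, e2] with n h1 h2
    simp [G, hnear _ h1, hnear _ h2]
  have : γ.toDual g = 0 := by
    refine tendsto_nhds_unique hγG ?_
    simp [hzero]
  exact hg this

end Flatness

section Dynamics

variable {M : Type u} [MetricSpace M] {z : M} {f : M → M} {L ε R r : ℝ}

/-- The metric properties of `f` used in the dynamical part. -/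
structure Flat (z : M) (f : M → M) (L ε R r : ℝ) : Prop where
  base : f z = z
  cont : Continuous f
  hL : 1 ≤ L
  lip : ∀ x y, dist (f x) (f y) ≤ L * dist x y
  ε_pos : 0 < ε
  ε_lt : ε < 1
  R_pos : 0 < R
  r_pos : 0 < r
  far : ∀ x y, R ≤ dist (f x) z → dist (f x) (f y) ≤ ε * dist x y
  near : ∀ x y, dist x z ≤ R → dist y z ≤ R → dist x y < r → dist (f x) (f y) ≤ ε * dist x y
  comp : ∃ C : Set M, IsCompact C ∧ ∀ x, dist x z ≤ R → f x ∈ C

namespace Flat

lemma ball (H : Flat z f L ε R r) {x : M} (hx : dist x z ≤ R) : dist (f x) z ≤ R := by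
  by_contra h
  push Not at h
  have h1 := H.far x z h.le
  rw [H.base] at h1
  have h2 : ε * dist x z ≤ 1 * R := mul_le_mul H.ε_lt.le hx dist_nonneg zero_le_one
  linarith

lemma ball_iter (H : Flat z f L ε R r) {x : M} (hx : dist x z ≤ R) (n : ℕ) :
    dist (f^[n] x) z ≤ R := by
  induction n with
  | zero => exact hx
  | succ n ih =>
    rw [Function.iterate_succ_apply']
    exact H.ball ih

lemma lip_iter (H : Flat z f L ε R r) (x y : M) (n : ℕ) :
    dist (f^[n] x) (f^[n] y) ≤ L ^ n * dist x y := by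
  induction n with
  | zero => simp
  | succ n ih =>
    rw [Function.iterate_succ_apply', Function.iterate_succ_apply']
    refine (H.lip _ _).trans ?_
    rw [pow_succ', mul_assoc]
    exact mul_le_mul_of_nonneg_left ih (by linarith [H.hL])

lemma contract (H : Flat z f L ε R r) {x y : M} (hx : dist x z ≤ R) (hy : dist y z ≤ R)
    (hxy : dist x y < r) (n : ℕ) : dist (f^[n] x) (f^[n] y) ≤ ε ^ n * dist x y := by
  induction n with
  | zero => simp
  | succ n ih =>
    rw [Function.iterate_succ_apply', Function.iterate_succ_apply']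
    have h1 : ε ^ n * dist x y ≤ 1 * dist x y :=
      mul_le_mul_of_nonneg_right (pow_le_one₀ H.ε_pos.le H.ε_lt.le) dist_nonneg
    refine (H.near _ _ (H.ball_iter hx n) (H.ball_iter hy n) (by linarith)).trans ?_
    rw [pow_succ', mul_assoc]
    exact mul_le_mul_of_nonneg_left ih H.ε_pos.le

lemma iter_dist_base (H : Flat z f L ε R r) (x : M) (n : ℕ) :
    dist (f^[n] x) z ≤ max R (ε ^ n * dist x z) := by
  induction n with
  | zero => simp
  | succ n ih =>
    rw [Function.iterate_succ_apply']
    rcases le_total R (dist (f (f^[n] x)) z) with h | h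
    · have h1 := H.far _ z h
      rw [H.base] at h1
      have h2 : ε * dist (f^[n] x) z ≤ ε * max R (ε ^ n * dist x z) :=
        mul_le_mul_of_nonneg_left ih H.ε_pos.le
      rw [mul_max_of_nonneg _ _ H.ε_pos.le] at h2
      refine h1.trans (h2.trans (max_le_max ?_ ?_))
      · nlinarith [H.ε_lt, H.R_pos]
      · rw [pow_succ', mul_assoc]
    · exact h.trans (le_max_left _ _)

/-- Periodic points lie in the ball of radius `R`. -/
lemma periodic_ball (H : Flat z f L ε R r) {x : M} {n : ℕ} (hn : 0 < n) (hx : f^[n] x = x) :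
    dist x z ≤ R := by
  have h := H.iter_dist_base x n
  rw [hx] at h
  rcases le_max_iff.1 h with h | h
  · exact h
  · have h1 : ε ^ n ≤ ε := by
      simpa using pow_le_pow_of_le_one H.ε_pos.le H.ε_lt.le hn
    have h2 : ε ^ n * dist x z ≤ ε * dist x z := mul_le_mul_of_nonneg_right h1 dist_nonneg
    have h3 : dist x z ≤ 0 := by
      by_contra hcon
      push Not at hcon
      nlinarith [H.ε_lt]
    linarith [H.R_pos]

/-- Periodic points are `r`-separated. -/
lemma periodic_sep (H : Flat z f L ε R r) {p q : M} (hp : p ∈ Function.periodicPts f)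
    (hq : q ∈ Function.periodicPts f) (hpq : dist p q < r) : p = q := by
  obtain ⟨n, hn, hpn⟩ := hp
  obtain ⟨m, hm, hqm⟩ := hq
  have h1 : f^[n * m] p = p := hpn.mul_const m
  have h2 : f^[n * m] q = q := hqm.const_mul n
  have h3 := H.contract (H.periodic_ball hn hpn) (H.periodic_ball hm hqm) hpq (n * m)
  rw [h1, h2] at h3
  have hnm : 0 < n * m := Nat.mul_pos hn hm
  have h4 : ε ^ (n * m) ≤ ε := by
    simpa using pow_le_pow_of_le_one H.ε_pos.le H.ε_lt.le hnm
  have h5 : ε ^ (n * m) * dist p q ≤ ε * dist p q := mul_le_mul_of_nonneg_right h4 dist_nonneg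
  have h6 : dist p q ≤ 0 := by
    by_contra hcon
    push Not at hcon
    nlinarith [H.ε_lt]
  exact dist_le_zero.1 h6

lemma periodic_finite (H : Flat z f L ε R r) : (Function.periodicPts f).Finite := by
  by_contra hinf
  have hinf' : (Function.periodicPts f).Infinite := hinf
  obtain ⟨C, hC, hfC⟩ := H.comp
  let u : ℕ ↪ Function.periodicPts f := hinf'.natEmbedding
  have hu : ∀ n, (u n : M) ∈ C := by
    intro n
    obtain ⟨v, hv, hvu⟩ := (Function.bijOn_periodicPts f).surjOn (u n).2
    obtain ⟨m, hm, hvm⟩ := hv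
    rw [← hvu]
    exact hfC v (H.periodic_ball hm hvm)
  obtain ⟨p, -, φ, hφ, hlim⟩ := hC.tendsto_subseq hu
  obtain ⟨N, hN⟩ := (Metric.cauchySeq_iff.1 hlim.cauchySeq) r H.r_pos
  have h1 := hN N le_rfl (N + 1) (Nat.le_succ N)
  have h2 := H.periodic_sep (u (φ N)).2 (u (φ (N + 1))).2 h1
  have h3 : φ N = φ (N + 1) := u.injective (Subtype.ext h2)
  exact absurd (hφ (Nat.lt_succ_self N)) (by rw [Nat.succ_eq_add_one, ← h3]; exact lt_irrefl _)

/-- A point of the ball that nearly returns to itself is shadowed by a periodic point. -/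
lemma shadow_of_return [CompleteSpace M] (H : Flat z f L ε R r) {v : M} {m : ℕ} (hmpos : 0 < m)
    (hvR : dist v z ≤ R) (hd : dist v (f^[m] v) < r) :
    ∃ p ∈ Function.periodicPts f, ∀ n, dist (f^[n] v) (f^[n] p) ≤ ε ^ n * r / (1 - ε) := by
  have hmR : dist (f^[m] v) z ≤ R := H.ball_iter hvR m
  have hstep : ∀ n k, dist (f^[n] (f^[m * k] v)) (f^[n] (f^[m * (k + 1)] v)) ≤
      (ε ^ n * r) * ε ^ k := by
    intro n k
    have h1 := H.contract hvR hmR hd (n + m * k)
    rw [← Function.iterate_add_apply] at h1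
    have e1 : f^[n] (f^[m * k] v) = f^[n + m * k] v := (Function.iterate_add_apply _ _ _ _).symm
    have e2 : f^[n] (f^[m * (k + 1)] v) = f^[n + m * k + m] v := by
      rw [← Function.iterate_add_apply, mul_add, mul_one, add_assoc]
    rw [e1, e2]
    refine h1.trans ?_
    have h2 : ε ^ (n + m * k) ≤ ε ^ (n + k) :=
      pow_le_pow_of_le_one H.ε_pos.le H.ε_lt.le (by nlinarith)
    calc ε ^ (n + m * k) * dist v (f^[m] v) ≤ ε ^ (n + k) * r :=
          mul_le_mul h2 hd.le dist_nonneg (pow_nonneg H.ε_pos.le _)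
      _ = _ := by rw [pow_add]; ring
  have hstep0 : ∀ k, dist (f^[m * k] v) (f^[m * (k + 1)] v) ≤ r * ε ^ k := by
    intro k
    simpa using hstep 0 k
  obtain ⟨p, hp⟩ := cauchySeq_tendsto_of_complete
    (cauchySeq_of_le_geometric ε r H.ε_lt hstep0)
  have hpn : ∀ n, Tendsto (fun k => f^[n] (f^[m * k] v)) atTop (𝓝 (f^[n] p)) := fun n =>
    ((H.cont.iterate n).tendsto p).comp hp
  refine ⟨p, ?_, fun n => ?_⟩
  · refine ⟨m, hmpos, ?_⟩
    have h1 := hpn m
    have h2 : Tendsto (fun k => f^[m * (k + 1)] v) atTop (𝓝 p) :=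
      hp.comp (tendsto_add_atTop_nat 1)
    refine tendsto_nhds_unique h1 (h2.congr fun k => ?_)
    rw [← Function.iterate_add_apply, mul_add, mul_one, add_comm]
  · have h1 := dist_le_of_le_geometric_of_tendsto₀ ε (ε ^ n * r) H.ε_lt (hstep n) (hpn n)
    simpa using h1

/-- Every point of the ball is shadowed, after a bounded number of steps, by a periodic point. -/
lemma shadow [CompleteSpace M] (H : Flat z f L ε R r) : ∃ N : ℕ, ∀ x, dist x z ≤ R →
    ∃ i ≤ N, ∃ p ∈ Function.periodicPts f, ∀ n,
      dist (f^[n] (f^[i] x)) (f^[n] p) ≤ ε ^ n * r / (1 - ε) := by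
  obtain ⟨C, hC, hfC⟩ := H.comp
  obtain ⟨t, -, htfin, ht⟩ := hC.finite_cover_balls (half_pos H.r_pos)
  refine ⟨htfin.toFinset.card + 1, fun x hx => ?_⟩
  -- pigeonhole
  have hmem : ∀ i : ℕ, ∃ c ∈ htfin.toFinset, dist (f^[i + 1] x) c < r / 2 := by
    intro i
    have h1 : f^[i + 1] x ∈ C := by
      rw [Function.iterate_succ_apply']
      exact hfC _ (H.ball_iter hx i)
    have h2 := ht h1
    simp only [Set.mem_iUnion, Metric.mem_ball] at h2
    obtain ⟨c, hc, hd⟩ := h2
    exact ⟨c, by simpa using hc, hd⟩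
  choose c hc hcd using hmem
  obtain ⟨i, hi, j, hj, hij, hcij⟩ := Finset.exists_ne_map_eq_of_card_lt_of_maps_to
    (s := Finset.range (htfin.toFinset.card + 1)) (t := htfin.toFinset) (f := c)
    (by simp) (fun i _ => hc i)
  wlog hlt : i < j generalizing i j
  · exact this j hj i hi hij.symm hcij.symm (lt_of_le_of_ne (not_lt.1 hlt) hij.symm)
  have hi' : i < htfin.toFinset.card + 1 := Finset.mem_range.1 hi
  refine ⟨i + 1, by omega, ?_⟩
  have hvm : f^[j - i] (f^[i + 1] x) = f^[j + 1] x := by
    rw [← Function.iterate_add_apply, show j - i + (i + 1) = j + 1 by omega]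
  refine H.shadow_of_return (m := j - i) (by omega) (H.ball_iter hx _) ?_
  rw [hvm]
  have h1 := hcd i
  have h2 := hcd j
  rw [← hcij] at h2
  have := dist_triangle_right (f^[i + 1] x) (f^[j + 1] x) (c i)
  linarith

/-- The key exponential estimate: functions vanishing on the periodic points are contracted at
rate `ε` by composition with iterates of `f`. -/
lemma estimate [CompleteSpace M] (H : Flat z f L ε R r) : ∃ B : ℝ, 0 ≤ B ∧
    ∀ (g : M → ℂ) (A : ℝ), 0 ≤ A → (∀ x y, dist (g x) (g y) ≤ A * dist x y) →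
      (∀ p ∈ Function.periodicPts f, g p = 0) → ∀ n x y,
        dist (g (f^[n] x)) (g (f^[n] y)) ≤ A * (B * ε ^ n * dist x y) := by
  obtain ⟨N, hN⟩ := H.shadow
  have hε := H.ε_pos
  have hε1 := H.ε_lt
  have hL := H.hL
  have hL0 : 0 < L := by linarith
  have h1ε : 0 < 1 - ε := by linarith
  set B1 : ℝ := (L / ε) ^ N + 2 / (ε ^ N * (1 - ε)) + 1 with hB1
  have hB1pos : 0 < B1 := by positivity
  -- the estimate inside the ball
  have inner : ∀ (g : M → ℂ) (A : ℝ), 0 ≤ A → (∀ x y, dist (g x) (g y) ≤ A * dist x y) →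
      (∀ p ∈ Function.periodicPts f, g p = 0) → ∀ n x y, dist x z ≤ R → dist y z ≤ R →
        dist (g (f^[n] x)) (g (f^[n] y)) ≤ A * (B1 * ε ^ n * dist x y) := by
    intro g A hA hg hgP n x y hx hy
    rcases lt_or_ge (dist x y) r with hr | hr
    · refine (hg _ _).trans (mul_le_mul_of_nonneg_left ?_ hA)
      refine (H.contract hx hy hr n).trans ?_
      have h1 : (1 : ℝ) ≤ B1 := by
        rw [hB1]
        have h2 : 0 ≤ (L / ε) ^ N := by positivity
        have h3 : 0 ≤ 2 / (ε ^ N * (1 - ε)) := by positivity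
        linarith
      have h2 : 0 ≤ ε ^ n * dist x y := by positivity
      nlinarith
    · rcases le_total N n with hn | hn
      · -- both orbits are close to periodic orbits
        have key : ∀ x, dist x z ≤ R → ‖g (f^[n] x)‖ ≤ A * (ε ^ n / (ε ^ N) * r / (1 - ε)) := by
          intro x hx
          obtain ⟨i, hi, p, hp, hip⟩ := hN x hx
          have h1 := hip (n - i)
          have e1 : f^[n - i] (f^[i] x) = f^[n] x := by
            rw [← Function.iterate_add_apply]
            congr 1
            omega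
          rw [e1] at h1
          have hpm : f^[n - i] p ∈ Function.periodicPts f := by
            obtain ⟨k, hk, hpk⟩ := hp
            exact ⟨k, hk, hpk.apply_iterate _⟩
          have h2 := hg (f^[n] x) (f^[n - i] p)
          rw [hgP _ hpm, dist_zero_right] at h2
          refine h2.trans (mul_le_mul_of_nonneg_left (h1.trans ?_) hA)
          have h3 : ε ^ (n - i) ≤ ε ^ n / ε ^ N := by
            rw [le_div_iff₀ (by positivity), ← pow_add]
            exact pow_le_pow_of_le_one hε.le hε1.le (by omega)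
          have h4 := H.r_pos
          gcongr
        have h1 := key x hx
        have h2 := key y hy
        have h3 : dist (g (f^[n] x)) (g (f^[n] y)) ≤ ‖g (f^[n] x)‖ + ‖g (f^[n] y)‖ := by
          rw [dist_eq_norm]; exact norm_sub_le _ _
        refine h3.trans ((add_le_add h1 h2).trans ?_)
        rw [← mul_add]
        refine mul_le_mul_of_nonneg_left ?_ hA
        have h4 : ε ^ n / ε ^ N * r / (1 - ε) + ε ^ n / ε ^ N * r / (1 - ε) =
            2 / (ε ^ N * (1 - ε)) * (ε ^ n * r) := by
          field_simp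
          ring
        rw [h4, mul_assoc]
        have h5 : 2 / (ε ^ N * (1 - ε)) ≤ B1 := by
          rw [hB1]
          have : 0 ≤ (L / ε) ^ N := by positivity
          linarith
        have h6 : ε ^ n * r ≤ ε ^ n * dist x y := mul_le_mul_of_nonneg_left hr (by positivity)
        have h7 : 0 ≤ ε ^ n * r := mul_nonneg (by positivity) H.r_pos.le
        exact mul_le_mul h5 h6 h7 hB1pos.le
      · refine (hg _ _).trans (mul_le_mul_of_nonneg_left ?_ hA)
        refine (H.lip_iter x y n).trans ?_
        have h1 : L ^ n = (L / ε) ^ n * ε ^ n := by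
          rw [div_pow, div_mul_cancel₀]
          positivity
        have h2 : (L / ε) ^ n ≤ (L / ε) ^ N := by
          refine pow_le_pow_right₀ ?_ hn
          rw [le_div_iff₀ hε]
          linarith
        have h3 : (L / ε) ^ n ≤ B1 := by
          rw [hB1]
          have : 0 ≤ 2 / (ε ^ N * (1 - ε)) := by positivity
          linarith
        rw [h1]
        have : 0 ≤ ε ^ n := by positivity
        gcongr
  set B : ℝ := B1 * (L / ε) with hB
  have hLε : 1 ≤ L / ε := by
    rw [le_div_iff₀ hε]
    linarith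
  have hB1B : B1 ≤ B := by
    rw [hB]
    nlinarith
  have hBpos : 0 < B := by positivity
  refine ⟨B, hBpos.le, ?_⟩
  intro g A hA hg hgP n
  have hB1 : 1 ≤ B := by
    have h2 : (1 : ℝ) ≤ B1 := by
      have h3 : 0 ≤ (L / ε) ^ N := by positivity
      have h4 : 0 ≤ 2 / (ε ^ N * (1 - ε)) := by positivity
      linarith
    linarith
  induction n with
  | zero =>
    intro x y
    refine (hg _ _).trans (mul_le_mul_of_nonneg_left ?_ hA)
    simp only [Function.iterate_zero, id_eq, pow_zero, mul_one]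
    have := dist_nonneg (x := x) (y := y)
    nlinarith
  | succ n ih =>
    -- a symmetric reduction: if `f x` is outside the ball we contract
    have out : ∀ x y, R ≤ dist (f x) z →
        dist (g (f^[n + 1] x)) (g (f^[n + 1] y)) ≤ A * (B * ε ^ (n + 1) * dist x y) := by
      intro x y hxR
      rw [Function.iterate_succ_apply, Function.iterate_succ_apply]
      refine (ih (f x) (f y)).trans (mul_le_mul_of_nonneg_left ?_ hA)
      have h1 := H.far x y hxR
      have h2 : B * ε ^ n * dist (f x) (f y) ≤ B * ε ^ n * (ε * dist x y) :=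
        mul_le_mul_of_nonneg_left h1 (by positivity)
      refine h2.trans (le_of_eq ?_)
      rw [pow_succ]
      ring
    intro x y
    rcases le_total R (dist (f x) z) with hx | hx
    · exact out x y hx
    rcases le_total R (dist (f y) z) with hy | hy
    · rw [dist_comm, dist_comm x y]
      exact out y x hy
    · rw [Function.iterate_succ_apply, Function.iterate_succ_apply]
      refine (inner g A hA hg hgP n (f x) (f y) hx hy).trans (mul_le_mul_of_nonneg_left ?_ hA)
      have h1 : B1 * ε ^ n * dist (f x) (f y) ≤ B1 * ε ^ n * (L * dist x y) :=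
        mul_le_mul_of_nonneg_left (H.lip x y) (by positivity)
      refine h1.trans (le_of_eq ?_)
      rw [hB, pow_succ]
      field_simp

end Flat

end Dynamics

section Main

variable {M : Type u} [MetricSpace M] {z : M}

/-- The bump function at a point `q` at distance at least `r` from the base point. -/
noncomputable def bump (q : M) (r : ℝ) (hr : 0 < r) (hq : r ≤ dist z q) : Lip0 M z :=
  Lip0.mk (fun a => ((max 0 (1 - dist a q / r) : ℝ) : ℂ)) ⟨r⁻¹, by positivity⟩
    (LipschitzWith.of_dist_le_mul fun a b => by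
      rw [dist_eq_norm, ← Complex.ofReal_sub, Complex.norm_real, Real.norm_eq_abs]
      refine (abs_max_sub_max_le_max _ _ _ _).trans ?_
      simp only [sub_self, abs_zero]
      refine max_le (by positivity) ?_
      have h2 : (1 - dist a q / r) - (1 - dist b q / r) = r⁻¹ * (dist b q - dist a q) := by
        field_simp
        ring
      rw [h2, abs_mul, abs_of_pos (by positivity : (0 : ℝ) < r⁻¹)]
      refine mul_le_mul_of_nonneg_left ?_ (by positivity)
      rw [dist_comm a b]
      exact abs_dist_sub_le b a q)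
    (by
      have h1 : 1 ≤ dist z q / r := by
        rw [le_div_iff₀ hr]
        linarith
      rw [max_eq_left (by linarith)]
      simp)

lemma bump_self (q : M) (r : ℝ) (hr : 0 < r) (hq : r ≤ dist z q) :
    bump q r hr hq q = 1 := by
  simp [bump]

lemma bump_far (q : M) (r : ℝ) (hr : 0 < r) (hq : r ≤ dist z q) {a : M} (ha : r ≤ dist a q) :
    bump q r hr hq a = 0 := by
  have h1 : 1 ≤ dist a q / r := by
    rw [le_div_iff₀ hr]
    linarith
  simp only [bump, Lip0.mk_apply]
  rw [max_eq_left (by linarith)]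
  simp

variable [CompleteSpace M] {K : ℝ≥0} {f : M → M}

/-- Compactness of `hat f` yields all the metric properties, for every `ε < 1`. -/
lemma exists_flat (hf : LipschitzWith K f) (h0 : f z = z)
    (hc : IsCompactOperator (hat hf h0)) {ε : ℝ} (hε : 0 < ε) (hε1 : ε < 1) :
    ∃ R r : ℝ, Flat z f ((K : ℝ) + 1) ε R r := by
  obtain ⟨R, hR, hfar⟩ := flat_at_infinity hf h0 hc hε
  obtain ⟨r, hr, hnear⟩ := locally_flat hf h0 hc hε R
  refine ⟨R, r, ⟨h0, hf.continuous, by linarith [K.coe_nonneg], fun x y => ?_, hε, hε1, hR, hr,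
    hfar, hnear, exists_compact hf h0 hc R⟩⟩
  refine (hf.dist_le_mul x y).trans ?_
  exact mul_le_mul_of_nonneg_right (by linarith) dist_nonneg

/-- An eigenvector for a nonzero eigenvalue only sees the periodic points. -/
lemma eigen_vanish (hf : LipschitzWith K f) (h0 : f z = z)
    (hc : IsCompactOperator (hat hf h0)) {lam : ℂ} (hlam : lam ≠ 0) {γ : FreeSpace M z}
    (hγ : hat hf h0 γ = lam • γ) {g : Lip0 M z}
    (hg : ∀ p ∈ Function.periodicPts f, g p = 0) : γ.toDual g = 0 := by
  have hl : 0 < ‖lam‖ := norm_pos_iff.2 hlam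
  set ε : ℝ := min ‖lam‖ 1 / 2 with hε
  have hεpos : 0 < ε := by positivity
  have hε1 : ε < 1 := by
    have : min ‖lam‖ 1 ≤ 1 := min_le_right _ _
    linarith
  have hεl : ε < ‖lam‖ := by
    have h1 : min ‖lam‖ 1 ≤ ‖lam‖ := min_le_left _ _
    linarith
  obtain ⟨R, r, H⟩ := exists_flat hf h0 hc hεpos hε1
  obtain ⟨B, hB, hest⟩ := H.estimate
  -- iterated eigenvalue equation
  have hit : ∀ n : ℕ, ∃ gn : Lip0 M z, (∀ x, gn x = g (f^[n] x)) ∧
      γ.toDual gn = lam ^ n * γ.toDual g := by
    intro n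
    induction n with
    | zero => exact ⟨g, fun x => rfl, by simp⟩
    | succ n ih =>
      obtain ⟨gn, h1, h2⟩ := ih
      refine ⟨compOp hf h0 gn, fun x => ?_, ?_⟩
      · rw [compOp_apply, h1, Function.iterate_succ_apply]
      · have h3 : (hat hf h0 γ).toDual gn = lam * γ.toDual gn := by
          rw [hγ]
          rfl
        rw [hat_apply] at h3
        rw [h3, h2, pow_succ]
        ring
  have hbd : ∀ n : ℕ, ‖γ.toDual g‖ ≤ (‖γ‖ * (‖g‖ * B)) * (ε / ‖lam‖) ^ n := by
    intro n
    obtain ⟨gn, h1, h2⟩ := hit n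
    have h3 : ‖gn‖ ≤ ‖g‖ * (B * ε ^ n) := by
      refine Lip0.norm_le_of (by positivity) fun x y => ?_
      rw [h1, h1, mul_assoc]
      exact hest g ‖g‖ (norm_nonneg _) g.dist_le hg n x y
    have h4 : ‖γ.toDual gn‖ ≤ ‖γ‖ * ‖gn‖ := ContinuousLinearMap.le_opNorm _ _
    rw [h2, norm_mul, norm_pow] at h4
    have h5 : ‖lam‖ ^ n * ‖γ.toDual g‖ ≤ ‖γ‖ * (‖g‖ * (B * ε ^ n)) :=
      h4.trans (mul_le_mul_of_nonneg_left h3 (norm_nonneg _))
    rw [div_pow, ← mul_div_assoc, le_div_iff₀ (by positivity)]
    linarith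
  have hlim : Tendsto (fun n : ℕ => (‖γ‖ * (‖g‖ * B)) * (ε / ‖lam‖) ^ n) atTop (𝓝 0) := by
    have h1 : Tendsto (fun n : ℕ => (ε / ‖lam‖) ^ n) atTop (𝓝 0) :=
      tendsto_pow_atTop_nhds_zero_of_lt_one (by positivity) ((div_lt_one hl).2 hεl)
    simpa using h1.const_mul (‖γ‖ * (‖g‖ * B))
  have h6 : ‖γ.toDual g‖ ≤ 0 := ge_of_tendsto' hlim hbd
  exact norm_le_zero_iff.1 h6

/-- Nonzero eigenvalues are roots of unity of orders in `A(f)`. -/
lemma eigen_root (hf : LipschitzWith K f) (h0 : f z = z)
    (hc : IsCompactOperator (hat hf h0)) {lam : ℂ} (hlam : lam ≠ 0) {γ : FreeSpace M z}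
    (hγ0 : γ ≠ 0) (hγ : hat hf h0 γ = lam • γ) : ∃ n ∈ orders f z, lam ^ n = 1 := by
  obtain ⟨R, r, H⟩ := exists_flat hf h0 hc (ε := 1 / 2) (by norm_num) (by norm_num)
  have hzP : z ∈ Function.periodicPts f := ⟨1, one_pos, h0⟩
  have hsep : ∀ q ∈ Function.periodicPts f, q ≠ z → r ≤ dist z q := by
    intro q hq hqz
    by_contra h
    push Not at h
    exact hqz (H.periodic_sep hzP hq h).symm
  -- some bump function sees `γ`
  obtain ⟨q, hq, hqz, hne⟩ : ∃ q, ∃ hq : q ∈ Function.periodicPts f, ∃ hqz : q ≠ z,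
      γ.toDual (bump q r H.r_pos (hsep q hq hqz)) ≠ 0 := by
    by_contra hcon
    push Not at hcon
    apply hγ0
    ext g
    rw [FreeSpace.toDual_zero]
    -- subtract the bumps
    classical
    have hP : (Function.periodicPts f \ {z}).Finite :=
      H.periodic_finite.subset Set.sdiff_subset
    have hP1 : ∀ q : {x // x ∈ hP.toFinset}, (q : M) ∈ Function.periodicPts f := fun q =>
      ((Set.Finite.mem_toFinset hP).1 q.2).1
    have hP2 : ∀ q : {x // x ∈ hP.toFinset}, (q : M) ≠ z := fun q =>
      ((Set.Finite.mem_toFinset hP).1 q.2).2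
    let S : Lip0 M z := ∑ q ∈ hP.toFinset.attach,
      g (q : M) • bump (q : M) r H.r_pos (hsep q (hP1 q) (hP2 q))
    have hS : γ.toDual S = 0 := by
      simp only [S, LipDual.map_sum]
      refine Finset.sum_eq_zero fun q _ => ?_
      rw [LipDual.map_smul, hcon q (hP1 q) (hP2 q), mul_zero]
    have hev : ∀ p ∈ Function.periodicPts f, (g - S) p = 0 := by
      intro p hp
      rcases eq_or_ne p z with rfl | hpz
      · simp
      have hmem : p ∈ hP.toFinset := by simp [hp, hpz]
      have happ : ∀ (s : Finset {x // x ∈ hP.toFinset})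
          (F : {x // x ∈ hP.toFinset} → Lip0 M z), (∑ q ∈ s, F q) p = ∑ q ∈ s, F q p := by
        intro s F
        exact LipDual.map_sum (delta (z := z) p) s F
      have hSp : S p = g p := by
        simp only [S]
        rw [happ, Finset.sum_eq_single ⟨p, hmem⟩]
        · rw [Lip0.smul_apply, bump_self, mul_one]
        · intro q _ hqp
          rw [Lip0.smul_apply, bump_far, mul_zero]
          by_contra h
          push Not at h
          have := H.periodic_sep hp (hP1 q) h
          exact hqp (Subtype.ext this.symm)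
        · intro h
          exact absurd (Finset.mem_attach _ _) h
      rw [Lip0.sub_apply, hSp, sub_self]
    have h1 := eigen_vanish hf h0 hc hlam hγ hev
    rw [LipDual.map_sub, hS, sub_zero] at h1
    exact h1
  set n := Function.minimalPeriod f q with hn
  have hnpos : 0 < n := Function.minimalPeriod_pos_of_mem_periodicPts hq
  have hqn : f^[n] q = q := Function.iterate_minimalPeriod
  refine ⟨n, ⟨hnpos, q, hqz, hqn, fun k hk1 hk2 => ?_⟩, ?_⟩
  · intro hk
    exact absurd (Function.IsPeriodicPt.minimalPeriod_le (by omega) hk) (not_le.2 hk2)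
  · set b := bump q r H.r_pos (hsep q hq hqz) with hb
    -- iterated eigenvalue equation
    obtain ⟨bn, h1, h2⟩ : ∃ bn : Lip0 M z, (∀ x, bn x = b (f^[n] x)) ∧
        γ.toDual bn = lam ^ n * γ.toDual b := by
      generalize n = n
      induction n with
      | zero => exact ⟨b, fun x => rfl, by simp⟩
      | succ n ih =>
        obtain ⟨gn, h1, h2⟩ := ih
        refine ⟨compOp hf h0 gn, fun x => ?_, ?_⟩
        · rw [compOp_apply, h1, Function.iterate_succ_apply]
        · have h3 : (hat hf h0 γ).toDual gn = lam * γ.toDual gn := by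
            rw [hγ]
            rfl
          rw [hat_apply] at h3
          rw [h3, h2, pow_succ]
          ring
    have hev : ∀ p ∈ Function.periodicPts f, (bn - b) p = 0 := by
      intro p hp
      rw [Lip0.sub_apply, h1]
      rcases eq_or_ne p q with rfl | hpq
      · rw [hqn, sub_self]
      · have hfp : f^[n] p ∈ Function.periodicPts f := by
          obtain ⟨k, hk, hpk⟩ := hp
          exact ⟨k, hk, hpk.apply_iterate _⟩
        have hfpq : f^[n] p ≠ q := by
          intro h
          apply hpq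
          have hinj : Set.InjOn (f^[n]) (Function.periodicPts f) :=
            ((Function.bijOn_periodicPts f).iterate n).injOn
          exact hinj hp hq (h.trans hqn.symm)
        rw [hb, bump_far, bump_far, sub_self]
        · by_contra h
          push Not at h
          exact hpq (H.periodic_sep hp hq h)
        · by_contra h
          push Not at h
          exact hfpq (H.periodic_sep hfp hq h)
    have h3 := eigen_vanish hf h0 hc hlam hγ hev
    rw [LipDual.map_sub, h2, sub_eq_zero] at h3
    have h4 : (lam ^ n - 1) * γ.toDual b = 0 := by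
      rw [sub_mul, one_mul, h3, sub_self]
    rcases mul_eq_zero.1 h4 with h5 | h5
    · exact sub_eq_zero.1 h5
    · exact absurd h5 hne

/-- Roots of unity of orders in `A(f)` are eigenvalues. -/
lemma root_eigen (hf : LipschitzWith K f) (h0 : f z = z)
    (hc : IsCompactOperator (hat hf h0)) {lam : ℂ} {n : ℕ} (hn : n ∈ orders f z)
    (hlam : lam ^ n = 1) :
    ∃ γ : FreeSpace M z, γ ≠ 0 ∧ hat hf h0 γ = lam • γ := by
  obtain ⟨R, r, H⟩ := exists_flat hf h0 hc (ε := 1 / 2) (by norm_num) (by norm_num)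
  obtain ⟨hn1, x, hxz, hxn, hxk⟩ := hn
  have hl0 : lam ≠ 0 := by
    rintro rfl
    rw [zero_pow (by omega)] at hlam
    exact zero_ne_one hlam
  have hxP : x ∈ Function.periodicPts f := ⟨n, by omega, hxn⟩
  have hzP : z ∈ Function.periodicPts f := ⟨1, one_pos, h0⟩
  have hzx : r ≤ dist z x := by
    by_contra h
    push Not at h
    exact hxz (H.periodic_sep hzP hxP h).symm
  let γ : FreeSpace M z := ∑ k ∈ Finset.range n, (lam⁻¹) ^ k • (dirac (f^[k] x) : FreeSpace M z)
  refine ⟨γ, ?_, ?_⟩
  · intro hγ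
    have hd : ∀ (g : Lip0 M z) (s : Finset ℕ) (F : ℕ → FreeSpace M z),
        (∑ k ∈ s, F k).toDual g = ∑ k ∈ s, (F k).toDual g := by
      intro g s F
      classical
      induction s using Finset.induction_on with
      | empty => simp
      | insert a s ha ih =>
        rw [Finset.sum_insert ha, Finset.sum_insert ha, FreeSpace.toDual_add, ih]
    have h1 : γ.toDual (bump x r H.r_pos hzx) = 1 := by
      simp only [γ]
      rw [hd, Finset.sum_eq_single 0]
      · simp [bump_self]
      · intro k hk hk0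
        have hk' : k < n := Finset.mem_range.1 hk
        have h2 : f^[k] x ≠ x := hxk k (by omega) hk'
        have h3 : f^[k] x ∈ Function.periodicPts f := by
          obtain ⟨m, hm, hxm⟩ := hxP
          exact ⟨m, hm, hxm.apply_iterate _⟩
        rw [FreeSpace.toDual_smul, toDual_dirac, bump_far, mul_zero]
        by_contra h
        push Not at h
        exact h2 (H.periodic_sep h3 hxP h)
      · intro h
        exact absurd (Finset.mem_range.2 (by omega)) h
    rw [hγ] at h1
    simp at h1
  · simp only [γ]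
    rw [map_sum, Finset.smul_sum]
    have h1 : ∀ k, hat hf h0 ((lam⁻¹) ^ k • (dirac (f^[k] x) : FreeSpace M z)) =
        lam • ((lam⁻¹) ^ (k + 1) • (dirac (f^[k + 1] x) : FreeSpace M z)) := by
      intro k
      rw [map_smul, hat_dirac, smul_smul, Function.iterate_succ_apply' f k x]
      congr 1
      rw [pow_succ]
      field_simp
    rw [Finset.sum_congr rfl fun k _ => h1 k, ← Finset.smul_sum, ← Finset.smul_sum]
    congr 1
    have h2 := Finset.sum_range_succ' (fun k => (lam⁻¹) ^ k • (dirac (f^[k] x) : FreeSpace M z)) n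
    have h3 := Finset.sum_range_succ (fun k => (lam⁻¹) ^ k • (dirac (f^[k] x) : FreeSpace M z)) n
    rw [h3] at h2
    simp only [pow_zero, Function.iterate_zero, id_eq] at h2
    rw [hxn, inv_pow, hlam, inv_one] at h2
    exact (add_right_cancel h2).symm

end Main

/-- **Main theorem.** Let `(M, z)` be a complete pointed metric space (bounded or unbounded) and
`f : M → M` a Lipschitz map with `f z = z` whose linearization `hat f : F(M) → F(M)` is compact.
Then the set `A(f)` of orders of periodic points (other than the base point) is finite, and the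
nonzero spectrum of `hat f` is exactly the union over `n ∈ A(f)` of the `n`-th roots of unity. -/
theorem result (M : Type u) [MetricSpace M] [CompleteSpace M] (z : M) (f : M → M) (K : ℝ≥0)
    (hf : LipschitzWith K f) (h0 : f z = z) (hc : IsCompactOperator (hat hf h0)) :
    (orders f z).Finite ∧
      sigma (hat hf h0) \ {0} = ⋃ n ∈ orders f z, {lam : ℂ | lam ^ n = 1} := by
  rw [sigma_eq_spectrum]
  constructor
  · obtain ⟨R, r, H⟩ := exists_flat hf h0 hc (ε := 1 / 2) (by norm_num) (by norm_num)
    refine (H.periodic_finite.image (Function.minimalPeriod f)).subset ?_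
    rintro n ⟨hn1, x, -, hxn, hxk⟩
    refine ⟨x, ⟨n, by omega, hxn⟩, ?_⟩
    have h1 : 0 < Function.minimalPeriod f x :=
      Function.minimalPeriod_pos_of_mem_periodicPts ⟨n, by omega, hxn⟩
    have h2 : Function.minimalPeriod f x ≤ n :=
      Function.IsPeriodicPt.minimalPeriod_le (by omega) hxn
    by_contra h3
    exact hxk _ h1 (lt_of_le_of_ne h2 h3) Function.iterate_minimalPeriod
  · ext lam
    simp only [Set.mem_sdiff, Set.mem_singleton_iff, Set.mem_iUnion, Set.mem_ofPred_eq,
      exists_prop]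
    constructor
    · rintro ⟨hs, hl⟩
      rw [← IsCompactOperator.hasEigenvalue_iff_mem_spectrum hc hl] at hs
      obtain ⟨γ, hγ⟩ := hs.exists_hasEigenvector
      exact eigen_root hf h0 hc hl hγ.2 hγ.apply_eq_smul
    · rintro ⟨n, hn, hl⟩
      have hl0 : lam ≠ 0 := by
        rintro rfl
        rw [zero_pow (by have := hn.1; omega)] at hl
        exact zero_ne_one hl
      refine ⟨?_, hl0⟩
      obtain ⟨γ, hγ0, hγ⟩ := root_eigen hf h0 hc hn hl
      rw [← IsCompactOperator.hasEigenvalue_iff_mem_spectrum hc hl0]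
      exact Module.End.hasEigenvalue_of_hasEigenvector (x := γ)
        ⟨Module.End.mem_eigenspace_iff.2 hγ, hγ0⟩

end Pool.Agent.Results.MP_e86906_an.CompactLipschitzSpectrum
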